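import Pool.Agent.H48.Sub.Main

set_option autoImplicit false

namespace Pool.Agent.Results.MP_7a0182_co.Fifteen

/-- `c` is a subcolouring of `G` with `k` colours: every colour class induces a graph without
induced path on three vertices, i.e. a disjoint union of complete graphs. -/
def IsSubcolouring {V : Type} (G : SimpleGraph V) {k : ℕ} (c : V → Fin k) : Prop :=
  ∀ u v w : V, c u = c v → c v = c w → G.Adj u v → G.Adj v w → u ≠ w → G.Adj u w

/-- The subchromatic number: the least number of colours of a subcolouring. -/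
noncomputable def subchromaticNumber {V : Type} (G : SimpleGraph V) : ℕ :=
  sInf {k : ℕ | ∃ c : V → Fin k, IsSubcolouring G c}

open Pool.Agent.H48.Sub in
theorem exists_four_fourteen (G : SimpleGraph (Fin 14)) :
    ∃ c : Fin 14 → Fin 4, IsSubcolouring G c := by
  obtain ⟨c, hc, h⟩ := (covN_fourteen G).exists_coloring
  refine ⟨fun v => ⟨c v, hc v (Set.mem_univ _)⟩, ?_⟩
  intro u v w h1 h2 h3 h4 h5
  exact h u (Set.mem_univ _) v (Set.mem_univ _) w (Set.mem_univ _) (congrArg Fin.val h1)
    (congrArg Fin.val h2) h3 h4 h5

theorem exists_four {n : ℕ} (hn : n ≤ 14) (G : SimpleGraph (Fin n)) :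
    ∃ c : Fin n → Fin 4, IsSubcolouring G c := by
  let f : Fin n ↪ Fin 14 := Fin.castLEEmb hn
  obtain ⟨c, hc⟩ := exists_four_fourteen (G.map f)
  refine ⟨fun v => c (f v), ?_⟩
  intro u v w h1 h2 h3 h4 h5
  have h6 := hc (f u) (f v) (f w) h1 h2 (by simpa using h3) (by simpa using h4)
    (fun h => h5 (f.injective h))
  simpa using h6

theorem subchromaticNumber_le {V : Type} {G : SimpleGraph V} {k : ℕ} {c : V → Fin k}
    (hc : IsSubcolouring G c) : subchromaticNumber G ≤ k :=
  Nat.sInf_le ⟨c, hc⟩

/-! ### The complete multipartite graph with parts of sizes 1, 2, 3, 4, 5 -/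

/-- the part of a vertex -/
def part (v : Fin 15) : Fin 5 :=
  if v.val < 1 then 0 else if v.val < 3 then 1 else if v.val < 6 then 2
    else if v.val < 10 then 3 else 4

def K : SimpleGraph (Fin 15) where
  Adj u v := part u ≠ part v
  symm := ⟨fun _ _ h => h.symm⟩
  loopless := ⟨fun _ h => h rfl⟩

theorem part_card : ∀ p : Fin 5, (Finset.univ.filter (fun v => part v = p)).card = p.val + 1 := by
  decide +kernel

theorem pigeon : ∀ f : Fin 4 → Option (Fin 5), ∃ p : Fin 5, (∀ i, f i ≠ some p) ∧
    (Finset.univ.filter (fun i => f i = none)).card ≤ p.val := by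
  decide +kernel

theorem K_five : ∃ c : Fin 15 → Fin 5, IsSubcolouring K c :=
  ⟨part, fun _ _ _ h1 _ h3 _ _ => absurd h1 h3⟩

theorem K_not_four (c : Fin 15 → Fin 4) (hc : IsSubcolouring K c) : False := by
  classical
  -- a class with two vertices in part `p` lies in part `p`
  have h1 : ∀ u w v : Fin 15, u ≠ w → part u = part w → c u = c w → c v = c u →
      part v = part u := by
    intro u w v huw hp hcuw hcv
    by_contra hne
    have h2 : K.Adj u v := fun h => hne h.symm
    have h3 : K.Adj v w := fun h => hne (h.trans hp.symm)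
    exact hc u v w hcv.symm (hcv.trans hcuw) h2 h3 huw hp
  let P : Fin 4 → Fin 5 → Prop := fun i p =>
    ∃ u w : Fin 15, u ≠ w ∧ part u = p ∧ part w = p ∧ c u = i ∧ c w = i
  let f : Fin 4 → Option (Fin 5) := fun i => if h : ∃ p, P i p then some h.choose else none
  have hf : ∀ i p, f i = some p → P i p := by
    intro i p hi
    by_cases h : ∃ p, P i p
    · have : f i = some h.choose := dif_pos h
      rw [this] at hi
      have h2 := h.choose_spec
      rwa [Option.some.inj hi] at h2
    · have : f i = none := dif_neg h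
      rw [this] at hi
      exact absurd hi (by simp)
  obtain ⟨p, hp1, hp2⟩ := pigeon f
  have h2 : ∀ v : Fin 15, part v = p → f (c v) = none := by
    intro v hv
    rcases hq : f (c v) with _ | q
    · rfl
    · exfalso
      obtain ⟨u, w, huw, hu, hw, hcu, hcw⟩ := hf _ _ hq
      have h3 := h1 u w v huw (hu.trans hw.symm) (hcu.trans hcw.symm) hcu.symm
      have h4 : q = p := by rw [← hu, ← h3, hv]
      exact hp1 _ (by rw [hq, h4])
  have h3 : ((Finset.univ.filter (fun v => part v = p)).image c).card = p.val + 1 := by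
    rw [Finset.card_image_of_injOn, part_card]
    intro u hu w hw huw
    by_contra hne
    have hu' : part u = p := by simpa using hu
    have hw' : part w = p := by simpa using hw
    have h4 := h2 u hu'
    have h5 : f (c u) = some (_ : ∃ p, P (c u) p).choose :=
      dif_pos ⟨p, u, w, hne, hu', hw', rfl, huw.symm⟩
    rw [h4] at h5
    exact absurd h5 (by simp)
  have h4 : (Finset.univ.filter (fun v => part v = p)).image c ⊆
      Finset.univ.filter (fun i => f i = none) := by
    intro i hi
    obtain ⟨v, hv, rfl⟩ := Finset.mem_image.mp hi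
    simp only [Finset.mem_filter, Finset.mem_univ, true_and] at hv ⊢
    exact h2 v hv
  have h5 := Finset.card_le_card h4
  omega

theorem K_subchromaticNumber : subchromaticNumber K = 5 := by
  apply le_antisymm
  · obtain ⟨c, hc⟩ := K_five
    exact subchromaticNumber_le hc
  · by_contra hlt
    have hne : {k : ℕ | ∃ c : Fin 15 → Fin k, IsSubcolouring K c}.Nonempty := ⟨5, K_five⟩
    obtain ⟨c, hc⟩ := Nat.sInf_mem hne
    have hle : sInf {k : ℕ | ∃ c : Fin 15 → Fin k, IsSubcolouring K c} ≤ 4 := by
      have : subchromaticNumber K =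
        sInf {k : ℕ | ∃ c : Fin 15 → Fin k, IsSubcolouring K c} := rfl
      omega
    refine K_not_four (fun v => Fin.castLE hle (c v)) ?_
    intro u v w h1 h2
    exact hc u v w (Fin.castLE_injective hle h1) (Fin.castLE_injective hle h2)

/-- `n_s(5) = 15`: the least number of vertices of a graph with subchromatic number `5`
is `15`. -/
theorem result :
    IsLeast {n : ℕ | ∃ G : SimpleGraph (Fin n), subchromaticNumber G = 5} 15 := by
  refine ⟨⟨K, K_subchromaticNumber⟩, ?_⟩
  rintro n ⟨G, hG⟩
  by_contra hn
  obtain ⟨c, hc⟩ := exists_four (n := n) (by omega) G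
  have := subchromaticNumber_le hc
  omega

end Pool.Agent.Results.MP_7a0182_co.Fifteen
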